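import Pool.Agent.Q99.CK.Defs
import Pool.Agent.Q99.CK.Metr

namespace Pool.Agent.Results.MP_2e9bdd_an.MetrizableCompact

open Pool.Agent.Q99.CK Topology

/-- `γ*(C(K)) = 1` for every nonempty compact metrizable `K`; more generally for every nonempty
compact Hausdorff `K` with a closed metrizable subset `P` off which `K` is zero-dimensional; and
every `2`-separated `c`-dense subgroup of `C(P)` (`c ≥ 1`) yields a `2`-separated
`(c + δ)`-dense subgroup of `C(K)` as soon as `K` is zero-dimensional off the closed set `P`. -/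
theorem result :
    (∀ (K : Type) [TopologicalSpace K] [CompactSpace K] [TopologicalSpace.MetrizableSpace K]
      [Nonempty K], gamLat C(K, ℝ) = 1) ∧
    (∀ (K : Type) [TopologicalSpace K] [CompactSpace K] [T2Space K] [Nonempty K] (P : Set K),
      IsClosed P → TopologicalSpace.MetrizableSpace P →
      (∀ x, x ∉ P → ∀ U ∈ 𝓝 x, ∃ V : Set K, IsClopen V ∧ x ∈ V ∧ V ⊆ U) →
      gamLat C(K, ℝ) = 1) ∧
    (∀ (K : Type) [TopologicalSpace K] [CompactSpace K] [T2Space K] (P : Set K) [CompactSpace P],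
      IsClosed P →
      (∀ x, x ∉ P → ∀ U ∈ 𝓝 x, ∃ V : Set K, IsClopen V ∧ x ∈ V ∧ V ⊆ U) →
      ∀ c δ : ℝ, 1 ≤ c → 0 < δ →
      (∃ D : AddSubgroup C(P, ℝ), Sep2 (D : Set C(P, ℝ)) ∧ RDense c (D : Set C(P, ℝ))) →
      ∃ D : AddSubgroup C(K, ℝ), Sep2 (D : Set C(K, ℝ)) ∧ RDense (c + δ) (D : Set C(K, ℝ))) := by
  refine ⟨?_, ?_, ?_⟩
  · intro K _ _ _ _
    have : T2Space K := inferInstance
    exact gamLat_eq_one good_metrizable
  · intro K _ _ _ _ P hP hm hz
    exact gamLat_eq_one (good_general hP hz hm)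
  · intro K _ _ _ P _ hP hz c δ hc hδ h
    exact reduce hz hP hc hδ h

end Pool.Agent.Results.MP_2e9bdd_an.MetrizableCompact
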